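import Mathlib

/-!
# `η(G) ≥ 0` for every discrete variety

Write `F_H(t) = ∑ t^|s|`, the sum over the complete subgraphs `s` of `H` (with `s = ∅`).  Then
`F_H' = ∑_x F_{S(x)}`, `η(G) = F_G(1) + F_G(-2) - F_G(-1) - F_G(0)`, every unit sphere of a
`d`-variety is a `(d-1)`-graph, and the Dehn-Sommerville equations of the spheres
(`F_L(-1-t) = ± F_L(t)`) give `η(G) = 0` for even `d` and
`η(G) = 2 (F_G(1) - F_G(0) - F_G'(-1/2)) = 2 ∑_k v_k(G) (1 - (k+1) (-1/2)^k) ≥ 0` for odd `d`.
-/

namespace Pool.Agent.Results.MP_165839_co.EtaNonneg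

open Finset Polynomial

open scoped Classical in
/-- The unit sphere of `x` in the induced subgraph `H[A]`: the neighbours of `x` that lie in `A`
(again standing for the subgraph that they induce). -/
noncomputable def S {α : Type*} (H : SimpleGraph α) (A : Finset α) (x : α) : Finset α :=
  {y ∈ A | H.Adj x y}

open scoped Classical in
/-- `v_k(H[A])`: the number of complete subgraphs with `k + 1` vertices of `H[A]`. -/
noncomputable def v {α : Type*} (H : SimpleGraph α) (A : Finset α) (k : ℕ) : ℕ :=
  #((A.powersetCard (k + 1)).filter (fun s : Finset α => H.IsClique (s : Set α)))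

/-- Collapsible graphs `H[A]`. -/
inductive Collapsible {α : Type*} [DecidableEq α] (H : SimpleGraph α) : Finset α → Prop
  | point (x : α) : Collapsible H {x}
  | step (A : Finset α) (x : α) (hx : x ∈ A) (h1 : Collapsible H (A.erase x))
      (h2 : Collapsible H (S H A x)) : Collapsible H A

/-- `IsSphere H n A`: the graph `H[A]` is an `(n-1)`-sphere. -/
def IsSphere {α : Type*} [DecidableEq α] (H : SimpleGraph α) : ℕ → Finset α → Prop
  | 0, A => A = ∅
  | n + 1, A => (∀ x ∈ A, IsSphere H n (S H A x)) ∧ ∃ x ∈ A, Collapsible H (A.erase x)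

/-- `IsGraph H n A`: the graph `H[A]` is an `(n-1)`-graph. -/
def IsGraph {α : Type*} [DecidableEq α] (H : SimpleGraph α) : ℕ → Finset α → Prop
  | 0, A => A = ∅
  | n + 1, A => ∀ x ∈ A, IsSphere H n (S H A x)

/-- `IsVariety H n A`: the graph `H[A]` is an `(n-1)`-variety. -/
def IsVariety {α : Type*} [DecidableEq α] (H : SimpleGraph α) : ℕ → Finset α → Prop
  | 0, A => A = ∅
  | n + 1, A => ∃ Sing ⊆ A, (∀ x ∈ Sing, ∀ y ∈ Sing, ¬ H.Adj x y) ∧
      (∀ x ∈ A, x ∉ Sing → IsGraph H n (S H A x)) ∧ ∀ x ∈ Sing, IsVariety H n (S H A x)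

/-- The comparability graph of finite sets. -/
def incl (α : Type*) : SimpleGraph (Finset α) where
  Adj s t := s ⊂ t ∨ t ⊂ s
  symm := ⟨fun _ _ h => h.symm⟩
  loopless := ⟨fun s h => by rcases h with h | h <;> exact (ssubset_irrefl _ h)⟩

open scoped Classical in
/-- The vertices of the Barycentric refinement of `H[A]`: the vertex sets of the (nonempty)
complete subgraphs.  The Barycentric refinement is the graph `(incl α)[simplices H A]`. -/
noncomputable def simplices {α : Type*} (H : SimpleGraph α) (A : Finset α) :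
    Finset (Finset α) :=
  A.powerset.filter (fun s : Finset α => s.Nonempty ∧ H.IsClique (s : Set α))

/-- The functional `η` of the graph `H[A]`. -/
noncomputable def eta {α : Type*} (H : SimpleGraph α) (A : Finset α) : ℤ :=
  ∑ k ∈ Icc 1 #(simplices H A),
    (-1) ^ (k + 1) * ((k : ℤ) + 1) * v (incl α) (simplices H A) k

/-! ### The clique polynomial -/

section
variable {α : Type*} [DecidableEq α]

open scoped Classical in
noncomputable def fp (H : SimpleGraph α) (A : Finset α) : ℚ[X] :=
  ∑ s ∈ A.powerset.filter (fun s : Finset α => H.IsClique (s : Set α)), X ^ (#s)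

omit [DecidableEq α] in
lemma mem_S {H : SimpleGraph α} {A : Finset α} {x y : α} :
    y ∈ S H A x ↔ y ∈ A ∧ H.Adj x y := by simp [S]

lemma fp_empty (H : SimpleGraph α) : fp H ∅ = 1 := by
  classical
  simp [fp, Finset.filter_singleton]

lemma fp_insert (H : SimpleGraph α) {A : Finset α} {x : α} (hx : x ∉ A) :
    fp H (insert x A) = fp H A + X * fp H (S H A x) := by
  classical
  unfold fp
  rw [powerset_insert, filter_union, sum_union]
  · congr 1
    rw [mul_sum, filter_image, sum_image]
    · refine sum_bij_ne_zero (fun s _ _ => s) ?_ ?_ ?_ ?_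
      · intro s hs _
        rw [mem_filter, mem_powerset] at hs ⊢
        have hxs : x ∉ s := fun h => hx (hs.1 h)
        refine ⟨?_, ?_⟩
        · intro y hy
          rw [mem_S]
          refine ⟨hs.1 hy, ?_⟩
          refine hs.2 (by simp) (by simp [hy]) ?_
          rintro rfl; exact hxs hy
        · exact hs.2.subset (by simp)
      · intro s _ _ t _ _ h; exact h
      · intro s hs _
        rw [mem_filter, mem_powerset] at hs
        have hsA : s ⊆ A := fun y hy => (mem_S.mp (hs.1 hy)).1
        refine ⟨s, ?_, pow_ne_zero _ X_ne_zero, rfl⟩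
        rw [mem_filter, mem_powerset]
        refine ⟨hsA, ?_⟩
        rw [coe_insert, SimpleGraph.isClique_insert_of_notMem (by
          intro h; exact hx (hsA h))]
        exact ⟨hs.2, fun y hy => (mem_S.mp (hs.1 hy)).2⟩
      · intro s hs _
        rw [mem_filter, mem_powerset] at hs
        have hxs : x ∉ s := fun h => hx (hs.1 h)
        rw [card_insert_of_notMem hxs, pow_succ, mul_comm]
    · intro s hs t ht h
      rw [mem_coe, mem_filter, mem_powerset] at hs ht
      have h1 : x ∉ s := fun h => hx (hs.1 h)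
      have h2 : x ∉ t := fun h => hx (ht.1 h)
      rw [← erase_insert h1, ← erase_insert h2, h]
  · rw [disjoint_left]
    intro s hs hs'
    rw [mem_filter, mem_powerset] at hs
    rw [mem_filter, mem_image] at hs'
    obtain ⟨⟨t, _, rfl⟩, _⟩ := hs'
    exact hx (hs.1 (mem_insert_self _ _))

lemma S_insert_self (H : SimpleGraph α) (A : Finset α) (x : α) :
    S H (insert x A) x = S H A x := by
  ext y
  simp only [mem_S, mem_insert]
  constructor
  · rintro ⟨rfl | h, hadj⟩
    · exact absurd hadj (H.loopless.irrefl _)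
    · exact ⟨h, hadj⟩
  · rintro ⟨h, hadj⟩; exact ⟨Or.inr h, hadj⟩

lemma S_insert_of_adj {H : SimpleGraph α} {A : Finset α} {x y : α} (h : H.Adj y x) :
    S H (insert x A) y = insert x (S H A y) := by
  ext z
  simp only [mem_S, mem_insert]
  constructor
  · rintro ⟨rfl | hz, hadj⟩
    · exact Or.inl rfl
    · exact Or.inr ⟨hz, hadj⟩
  · rintro (rfl | ⟨hz, hadj⟩)
    · exact ⟨Or.inl rfl, h⟩
    · exact ⟨Or.inr hz, hadj⟩

lemma S_insert_of_not_adj {H : SimpleGraph α} {A : Finset α} {x y : α} (h : ¬ H.Adj y x) :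
    S H (insert x A) y = S H A y := by
  ext z
  simp only [mem_S, mem_insert]
  constructor
  · rintro ⟨rfl | hz, hadj⟩
    · exact absurd hadj h
    · exact ⟨hz, hadj⟩
  · rintro ⟨hz, hadj⟩; exact ⟨Or.inr hz, hadj⟩

omit [DecidableEq α] in
lemma S_comm (H : SimpleGraph α) (A : Finset α) (x y : α) :
    S H (S H A x) y = S H (S H A y) x := by
  ext z
  simp only [mem_S]
  tauto

omit [DecidableEq α] in
lemma S_subset (H : SimpleGraph α) (A : Finset α) (x : α) : S H A x ⊆ A :=
  fun _ hy => (mem_S.mp hy).1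

theorem derivative_fp (H : SimpleGraph α) (A : Finset α) :
    derivative (fp H A) = ∑ x ∈ A, fp H (S H A x) := by
  classical
  induction A using Finset.strongInduction with
  | H A ih =>
    rcases A.eq_empty_or_nonempty with rfl | ⟨x, hx⟩
    · simp [fp_empty]
    · obtain ⟨B, hxB, rfl⟩ : ∃ B, x ∉ B ∧ insert x B = A :=
        ⟨A.erase x, notMem_erase _ _, insert_erase hx⟩
      have hB : B ⊂ insert x B := ssubset_insert hxB
      have hSB : S H B x ⊂ insert x B := (S_subset H B x).trans_ssubset hB
      rw [fp_insert H hxB, derivative_add, derivative_mul, derivative_X, one_mul, ih B hB,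
        ih (S H B x) hSB, sum_insert hxB, S_insert_self]
      have h1 : ∑ y ∈ B, fp H (S H (insert x B) y) =
          ∑ y ∈ B, fp H (S H B y) + ∑ y ∈ B, (if H.Adj x y then X * fp H (S H (S H B y) x) else 0) := by
        rw [← sum_add_distrib]
        refine sum_congr rfl fun y hy => ?_
        by_cases hadj : H.Adj x y
        · rw [if_pos hadj, S_insert_of_adj hadj.symm, fp_insert]
          intro hmem
          exact hxB (mem_S.mp hmem).1
        · rw [if_neg hadj, S_insert_of_not_adj (fun h => hadj h.symm), add_zero]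
      rw [h1, ← sum_filter]
      have h2 : B.filter (fun y => H.Adj x y) = S H B x := by
        ext z; simp [mem_S]
      rw [h2, mul_sum]
      have h3 : ∑ y ∈ S H B x, X * fp H (S H (S H B y) x) =
          ∑ y ∈ S H B x, X * fp H (S H (S H B x) y) := by
        refine sum_congr rfl fun y _ => ?_
        rw [S_comm]
      rw [h3]
      ring

lemma eval_zero_fp (H : SimpleGraph α) (A : Finset α) : (fp H A).eval 0 = 1 := by
  classical
  induction A using Finset.induction_on with
  | empty => simp [fp_empty]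
  | insert x A hx ih => rw [fp_insert H hx]; simp [ih]

lemma eval_collapsible {H : SimpleGraph α} {A : Finset α} (h : Collapsible H A) :
    (fp H A).eval (-1) = 0 := by
  induction h with
  | point x =>
    have : ({x} : Finset α) = insert x ∅ := by simp
    rw [this, fp_insert H (notMem_empty _), fp_empty]
    have : S H ∅ x = ∅ := by ext y; simp [mem_S]
    rw [this, fp_empty]; simp
  | step A x hx h1 h2 ih1 ih2 =>
    rw [← insert_erase hx, fp_insert H (notMem_erase _ _)]
    have : S H (A.erase x) x = S H A x := by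
      rw [← S_insert_self H (A.erase x) x, insert_erase hx]
    rw [this]
    simp [ih1, ih2]

lemma eval_sphere {H : SimpleGraph α} : ∀ (n : ℕ) (A : Finset α), IsSphere H n A →
    (fp H A).eval (-1) = (-1) ^ n := by
  intro n
  induction n with
  | zero =>
    intro A hA
    have : A = ∅ := hA
    subst this
    simp [fp_empty]
  | succ n ih =>
    intro A hA
    obtain ⟨h1, x, hx, hc⟩ := hA
    have e : S H (A.erase x) x = S H A x := by
      rw [← S_insert_self H (A.erase x) x, insert_erase hx]
    rw [← insert_erase hx, fp_insert H (notMem_erase _ _), e]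
    simp only [eval_add, eval_mul, eval_X, eval_collapsible hc, ih _ (h1 x hx)]
    ring

/-- reflection at `-1/2` -/
noncomputable def refl (p : ℚ[X]) : ℚ[X] := p.comp (-1 - X)

lemma eval_refl (p : ℚ[X]) (t : ℚ) : (refl p).eval t = p.eval (-1 - t) := by
  simp [refl]

lemma derivative_refl (p : ℚ[X]) : derivative (refl p) = - refl (derivative p) := by
  rw [refl, derivative_comp, refl]
  simp

lemma refl_sum {ι : Type*} (s : Finset ι) (f : ι → ℚ[X]) :
    refl (∑ i ∈ s, f i) = ∑ i ∈ s, refl (f i) := by
  simp [refl]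

lemma eval_eq_of_derivative {p q : ℚ[X]} (h : derivative p = derivative q) (s t : ℚ) :
    p.eval s - q.eval s = p.eval t - q.eval t := by
  have h1 : derivative (p - q) = 0 := by rw [derivative_sub, h, sub_self]
  have h2 := derivative_eq_zero.mp h1
  obtain ⟨c, hc⟩ : ∃ c, p - q = C c := ⟨_, eq_C_of_natDegree_eq_zero h2⟩
  rw [← eval_sub, ← eval_sub, hc, eval_C, eval_C]

/-- Dehn-Sommerville for spheres -/
lemma ds_sphere {H : SimpleGraph α} : ∀ (n : ℕ) (A : Finset α), IsSphere H n A →
    refl (fp H A) = (-1) ^ n * fp H A := by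
  intro n
  induction n with
  | zero =>
    intro A hA
    have : A = ∅ := hA
    subst this
    simp [fp_empty, refl]
  | succ n ih =>
    intro A hA
    have hd : derivative (refl (fp H A)) = derivative ((-1) ^ (n + 1) * fp H A) := by
      rw [derivative_refl, derivative_fp, refl_sum]
      have e : ((-1 : ℚ[X]) ^ (n + 1)) = C ((-1) ^ (n + 1)) := by simp
      rw [e, derivative_C_mul, derivative_fp, mul_sum, ← sum_neg_distrib]
      refine sum_congr rfl fun x hx => ?_
      rw [ih _ (hA.1 x hx), ← e]
      ring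
    have h0 := eval_eq_of_derivative hd 0
    apply Polynomial.funext
    intro t
    have h1 := h0 t
    rw [eval_refl, eval_refl] at h1
    have h2 : eval (-1 - (0 : ℚ)) (fp H A) = (-1) ^ (n + 1) := by
      rw [sub_zero, eval_sphere (n + 1) A hA]
    rw [h2] at h1
    have e2 : eval (0 : ℚ) ((-1) ^ (n + 1) * fp H A) = (-1) ^ (n + 1) := by
      rw [eval_mul, eval_zero_fp]; simp
    rw [e2, sub_self] at h1
    rw [eval_refl]
    linarith

lemma refl_graph {H : SimpleGraph α} (d : ℕ) (A : Finset α) (h : IsGraph H d A) (t : ℚ) :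
    (fp H A).eval (-1 - t) =
      (-1) ^ d * (fp H A).eval t + (1 - (-1) ^ d) * (fp H A).eval (-1 / 2) := by
  cases d with
  | zero =>
    have : A = ∅ := h
    subst this
    simp [fp_empty]
  | succ n =>
    have hd : derivative (refl (fp H A)) = derivative ((-1) ^ (n + 1) * fp H A) := by
      rw [derivative_refl, derivative_fp, refl_sum]
      have e : ((-1 : ℚ[X]) ^ (n + 1)) = C ((-1) ^ (n + 1)) := by simp
      rw [e, derivative_C_mul, derivative_fp, mul_sum, ← sum_neg_distrib]
      refine sum_congr rfl fun x hx => ?_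
      rw [ds_sphere n _ (h x hx), ← e]
      ring
    have h1 := eval_eq_of_derivative hd t (-1 / 2)
    rw [eval_refl, eval_refl] at h1
    have e1 : (-1 - (-1 / 2) : ℚ) = -1 / 2 := by norm_num
    rw [e1] at h1
    simp only [eval_mul, eval_pow, eval_neg, eval_one] at h1
    linarith

/-- every unit sphere of a `d`-variety is a `(d-1)`-graph -/
lemma graph_of_variety {H : SimpleGraph α} (d : ℕ) (A : Finset α)
    (h : IsVariety H (d + 1) A) (x : α) (hx : x ∈ A) : IsGraph H d (S H A x) := by
  obtain ⟨Sing, hsub, hind, h1, h2⟩ := h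
  by_cases hxS : x ∈ Sing
  · cases d with
    | zero => exact h2 x hxS
    | succ n =>
      intro y hy
      rw [mem_S] at hy
      have hyS : y ∉ Sing := fun hyS => hind x hxS y hyS hy.2
      have := h1 y hy.1 hyS
      rw [S_comm]
      exact this x (mem_S.mpr ⟨hx, hy.2.symm⟩)
  · exact h1 x hx hxS

/-- the main identity, for the clique polynomial -/
theorem main_identity {H : SimpleGraph α} (d : ℕ) (A : Finset α) (h : IsVariety H (d + 1) A) :
    (fp H A).eval 1 + (fp H A).eval (-2) - (fp H A).eval (-1) - (fp H A).eval 0 =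
      (1 - (-1) ^ d) * ((fp H A).eval 1 - (fp H A).eval 0 -
        (derivative (fp H A)).eval (-1 / 2)) := by
  have hd : derivative (refl (fp H A)) =
      derivative (-((-1) ^ d * fp H A) -
        C ((1 - (-1) ^ d) * (derivative (fp H A)).eval (-1 / 2)) * X) := by
    have e : ((-1 : ℚ[X]) ^ d) = C ((-1) ^ d) := by simp
    rw [derivative_refl, derivative_sub, derivative_neg, e, derivative_C_mul, derivative_C_mul,
      derivative_X, mul_one, derivative_fp, refl_sum]
    apply Polynomial.funext
    intro t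
    simp only [eval_neg, eval_finsetSum, eval_refl, eval_sub, eval_mul, eval_C]
    rw [mul_sum, mul_sum, ← sum_neg_distrib, ← sum_neg_distrib, ← sum_sub_distrib]
    refine sum_congr rfl fun x hx => ?_
    rw [refl_graph d _ (graph_of_variety d A h x hx)]
    ring
  have h1 := eval_eq_of_derivative hd 1 0
  rw [eval_refl, eval_refl] at h1
  have e1 : (-1 - 1 : ℚ) = -2 := by norm_num
  have e2 : (-1 - 0 : ℚ) = -1 := by norm_num
  rw [e1, e2] at h1
  simp only [eval_sub, eval_neg, eval_mul, eval_pow, eval_one, eval_C, eval_X] at h1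
  linarith

lemma nonneg_part {H : SimpleGraph α} (A : Finset α) :
    0 ≤ (fp H A).eval 1 - (fp H A).eval 0 - (derivative (fp H A)).eval (-1 / 2) := by
  classical
  unfold fp
  rw [derivative_sum, eval_finsetSum, eval_finsetSum, eval_finsetSum, ← sum_sub_distrib,
    ← sum_sub_distrib]
  refine sum_nonneg fun s _ => ?_
  simp only [derivative_X_pow, eval_pow, eval_X, eval_mul, eval_natCast, one_pow, map_natCast]
  rcases Nat.eq_zero_or_pos (#s) with h0 | h0
  · rw [h0]; simp
  · rw [zero_pow h0.ne']
    obtain ⟨n, hn⟩ : ∃ n, #s = n + 1 := ⟨#s - 1, by omega⟩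
    rw [hn, Nat.add_sub_cancel]
    have h1 : ((n + 1 : ℕ) : ℚ) * (-1 / 2) ^ n ≤ 1 := by
      have h2 : ((-1 : ℚ) / 2) ^ n ≤ (1 / 2) ^ n := by
        have : |((-1 : ℚ) / 2) ^ n| = (1 / 2) ^ n := by
          rw [abs_pow]; norm_num
        rw [← this]; exact le_abs_self _
      have h3 : ((n + 1 : ℕ) : ℚ) ≤ 2 ^ n := by
        have : n + 1 ≤ 2 ^ n := Nat.lt_two_pow_self
        exact_mod_cast this
      calc ((n + 1 : ℕ) : ℚ) * (-1 / 2) ^ n ≤ ((n + 1 : ℕ) : ℚ) * (1 / 2) ^ n :=
            mul_le_mul_of_nonneg_left h2 (by positivity)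
        _ ≤ 2 ^ n * (1 / 2) ^ n := mul_le_mul_of_nonneg_right h3 (by positivity)
        _ = 1 := by rw [← mul_pow]; norm_num
    linarith

end

/-! ### The Barycentric refinement -/

section
variable {α : Type*} [DecidableEq α]

lemma sum_sub_faces (τ : Finset α) (hτ : τ.Nonempty) (f : Finset α → ℚ) :
    ∑ σ ∈ τ.ssubsets.erase ∅, f σ = ∑ σ ∈ τ.powerset, f σ - f τ - f ∅ := by
  have h1 : τ.powerset = insert τ (insert ∅ (τ.ssubsets.erase ∅)) := by
    ext σ
    simp only [mem_powerset, mem_insert, mem_erase, mem_ssubsets]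
    constructor
    · intro h
      by_cases h1 : σ = τ
      · exact Or.inl h1
      · by_cases h2 : σ = ∅
        · exact Or.inr (Or.inl h2)
        · exact Or.inr (Or.inr ⟨h2, Finset.ssubset_iff_subset_ne.mpr ⟨h, h1⟩⟩)
    · rintro (rfl | rfl | ⟨_, h⟩)
      · exact subset_rfl
      · exact empty_subset _
      · exact h.1
  rw [h1, sum_insert, sum_insert]
  · ring
  · simp
  · simp only [mem_insert, mem_erase, mem_ssubsets, not_or]
    exact ⟨hτ.ne_empty, fun h => (ssubset_irrefl _ h.2)⟩

omit [DecidableEq α] in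
lemma sum_pow_faces (τ : Finset α) (a : ℚ) :
    ∑ σ ∈ τ.powerset, a ^ (#σ) = (a + 1) ^ (#τ) := by
  have := Finset.sum_pow_mul_eq_add_pow a 1 τ
  simpa using this

theorem bary_eval (K : Finset (Finset α)) (hne : ∀ s ∈ K, s.Nonempty)
    (hdown : ∀ s ∈ K, ∀ t ⊆ s, t.Nonempty → t ∈ K) :
    (fp (incl α) K).eval (-1) = 1 + ∑ σ ∈ K, (-1) ^ (#σ) ∧
    (derivative (fp (incl α) K)).eval (-1) = - ∑ σ ∈ K, (-1) ^ (#σ) * (2 ^ (#σ) - 1) := by
  induction K using Finset.strongInduction with
  | H K ih =>
    rcases K.eq_empty_or_nonempty with rfl | hK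
    · simp [fp_empty]
    · obtain ⟨τ, hτ, hmax⟩ := exists_max_image K (fun s => #s) hK
      have hτne := hne τ hτ
      -- the smaller family
      have hmem' : ∀ s ∈ K.erase τ, s ∈ K := fun s hs => mem_of_mem_erase hs
      obtain ⟨ih1, ih2⟩ := ih (K.erase τ) (erase_ssubset hτ) (fun s hs => hne s (hmem' s hs))
        (by
          intro s hs t hts htne
          rw [mem_erase]
          refine ⟨?_, hdown s (hmem' s hs) t hts htne⟩
          rintro rfl
          have h1 := hmax s (hmem' s hs)
          have : t = s := eq_of_subset_of_card_le hts h1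
          exact (mem_erase.mp hs).1 this.symm)
      have hB : τ.ssubsets.erase ∅ ⊂ K := by
        rw [ssubset_iff_of_subset]
        · exact ⟨τ, hτ, fun h => ssubset_irrefl _ (mem_ssubsets.mp (mem_of_mem_erase h))⟩
        · intro s hs
          rw [mem_erase, mem_ssubsets] at hs
          exact hdown τ hτ s hs.2.1 (nonempty_iff_ne_empty.mpr hs.1)
      obtain ⟨ihB1, ihB2⟩ := ih (τ.ssubsets.erase ∅) hB
        (fun s hs => nonempty_iff_ne_empty.mpr (mem_erase.mp hs).1)
        (by
          intro s hs t hts htne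
          rw [mem_erase, mem_ssubsets] at hs ⊢
          exact ⟨htne.ne_empty, hts.trans_ssubset hs.2⟩)
      have hS : S (incl α) (K.erase τ) τ = τ.ssubsets.erase ∅ := by
        ext s
        rw [mem_S, mem_erase, mem_erase, mem_ssubsets]
        constructor
        · rintro ⟨⟨hsτ, hsK⟩, h | h⟩
          · exact absurd (hmax s hsK) (not_le.mpr (card_lt_card h))
          · exact ⟨(hne s hsK).ne_empty, h⟩
        · rintro ⟨hs, h⟩
          exact ⟨⟨h.ne, hdown τ hτ s h.1 (nonempty_iff_ne_empty.mpr hs)⟩, Or.inr h⟩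
      have hfp : fp (incl α) K = fp (incl α) (K.erase τ) + X * fp (incl α) (τ.ssubsets.erase ∅) := by
        conv_lhs => rw [← insert_erase hτ]
        rw [fp_insert _ (notMem_erase _ _), hS]
      have hs1 : ∀ f : Finset α → ℚ, ∑ σ ∈ K, f σ = f τ + ∑ σ ∈ K.erase τ, f σ := by
        intro f
        rw [add_comm, sum_erase_add _ _ hτ]
      have hn : #τ ≠ 0 := card_ne_zero.mpr hτne
      have hz : ∑ σ ∈ τ.powerset, (-1 : ℚ) ^ (#σ) = 0 := by
        rw [sum_pow_faces]; simp [hn]
      have hz2 : ∑ σ ∈ τ.powerset, (-2 : ℚ) ^ (#σ) = (-1) ^ (#τ) := by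
        rw [sum_pow_faces]; norm_num
      constructor
      · rw [hfp, eval_add, eval_mul, eval_X, ih1, ihB1, sum_sub_faces τ hτne, hz, hs1]
        simp
        ring
      · rw [hfp, derivative_add, derivative_mul, derivative_X, one_mul, eval_add, eval_add,
          eval_mul, eval_X, ih2, ihB1, ihB2, sum_sub_faces τ hτne, sum_sub_faces τ hτne, hz, hs1]
        have e : ∑ σ ∈ τ.powerset, (-1 : ℚ) ^ (#σ) * (2 ^ (#σ) - 1) = (-1) ^ (#τ) := by
          have : ∀ σ : Finset α, (-1 : ℚ) ^ (#σ) * (2 ^ (#σ) - 1) = (-2) ^ (#σ) - (-1) ^ (#σ) := by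
            intro σ
            rw [mul_sub, ← mul_pow]; norm_num
          rw [sum_congr rfl (fun σ _ => this σ), sum_sub_distrib, hz, hz2, sub_zero]
        rw [e]
        simp
        ring

omit [DecidableEq α] in
lemma mem_simplices {H : SimpleGraph α} {A : Finset α} {s : Finset α} :
    s ∈ simplices H A ↔ s ⊆ A ∧ s.Nonempty ∧ H.IsClique (s : Set α) := by
  simp [simplices]

lemma fp_eq_simplices (H : SimpleGraph α) (A : Finset α) :
    fp H A = 1 + ∑ σ ∈ simplices H A, X ^ (#σ) := by
  classical
  unfold fp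
  have : A.powerset.filter (fun s : Finset α => H.IsClique (s : Set α)) =
      insert ∅ (simplices H A) := by
    ext s
    simp only [mem_filter, mem_powerset, mem_insert, mem_simplices]
    constructor
    · rintro ⟨h1, h2⟩
      rcases s.eq_empty_or_nonempty with h | h
      · exact Or.inl h
      · exact Or.inr ⟨h1, h, h2⟩
    · rintro (rfl | ⟨h1, _, h2⟩)
      · exact ⟨empty_subset _, by simp⟩
      · exact ⟨h1, h2⟩
  rw [this, sum_insert (by simp [mem_simplices])]
  simp

lemma derivative_eval_eq (H : SimpleGraph α) (A : Finset α) :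
    (derivative (fp H A)).eval (-1) =
      (#A : ℚ) - ∑ k ∈ Icc 1 (#A), (-1) ^ (k + 1) * ((k : ℚ) + 1) * v H A k := by
  classical
  have h1 : (derivative (fp H A)).eval (-1) =
      ∑ s ∈ A.powerset.filter (fun s : Finset α => H.IsClique (s : Set α)),
        (#s : ℚ) * (-1) ^ (#s - 1) := by
    unfold fp
    rw [derivative_sum, eval_finsetSum]
    refine sum_congr rfl fun s _ => ?_
    simp [derivative_X_pow]
  have h2 : ∀ j, #((A.powerset.filter (fun s : Finset α => H.IsClique (s : Set α))).filter
      (fun s => #s = j + 1)) = v H A j := by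
    intro j
    unfold v
    congr 1
    ext s
    simp only [mem_filter, mem_powerset, mem_powersetCard]
    tauto
  have h3 : ∑ s ∈ A.powerset.filter (fun s : Finset α => H.IsClique (s : Set α)),
        (#s : ℚ) * (-1) ^ (#s - 1) =
      ∑ j ∈ range (#A + 2), ∑ s ∈ (A.powerset.filter
        (fun s : Finset α => H.IsClique (s : Set α))).filter (fun s => #s = j),
        (#s : ℚ) * (-1) ^ (#s - 1) := by
    rw [sum_fiberwise_of_maps_to]
    intro s hs
    rw [mem_filter, mem_powerset] at hs
    rw [mem_range]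
    have := card_le_card hs.1
    omega
  have h4 : ∀ j, ∑ s ∈ (A.powerset.filter
        (fun s : Finset α => H.IsClique (s : Set α))).filter (fun s => #s = j + 1),
        (#s : ℚ) * (-1) ^ (#s - 1) = (v H A j : ℚ) * (((j : ℚ) + 1) * (-1) ^ j) := by
    intro j
    rw [← h2 j, ← nsmul_eq_mul, ← sum_const]
    refine sum_congr rfl fun s hs => ?_
    rw [(mem_filter.mp hs).2, Nat.add_sub_cancel]
    push_cast; ring
  have h5 : ∑ s ∈ (A.powerset.filter
        (fun s : Finset α => H.IsClique (s : Set α))).filter (fun s => #s = 0),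
        (#s : ℚ) * (-1) ^ (#s - 1) = 0 := by
    refine sum_eq_zero fun s hs => ?_
    rw [(mem_filter.mp hs).2]; simp
  have hv0 : v H A 0 = #A := by
    have e : v H A 0 = #(A.powersetCard 1) := by
      unfold v
      congr 1
      ext s
      simp only [mem_filter, mem_powersetCard, zero_add, and_iff_left_iff_imp]
      rintro ⟨_, h⟩
      obtain ⟨a, rfl⟩ := card_eq_one.mp h
      simp
    rw [e, card_powersetCard, Nat.choose_one_right]
  rw [h1, h3, sum_range_succ', h5, add_zero, sum_congr rfl (fun j _ => h4 j), sum_range_succ', hv0]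
  have h6 : ∑ k ∈ Icc 1 (#A), (-1 : ℚ) ^ (k + 1) * ((k : ℚ) + 1) * v H A k =
      ∑ k ∈ range (#A), (-1 : ℚ) ^ (k + 1 + 1) * (((k + 1 : ℕ) : ℚ) + 1) * v H A (k + 1) := by
    rw [range_eq_Ico, sum_Ico_add' (fun k : ℕ => (-1 : ℚ) ^ (k + 1) * ((k : ℚ) + 1) * v H A k)]
    rfl
  rw [h6, sub_eq_add_neg, ← sum_neg_distrib, add_comm]
  congr 1
  · simp
  · refine sum_congr rfl fun k _ => ?_
    rw [pow_succ _ (k + 1)]
    ring

theorem eta_eq (H : SimpleGraph α) (A : Finset α) :
    (eta H A : ℚ) = (fp H A).eval 1 + (fp H A).eval (-2) - (fp H A).eval (-1) -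
      (fp H A).eval 0 := by
  classical
  have hb := (bary_eval (simplices H A) (by
      intro s hs; exact (mem_simplices.mp hs).2.1) (by
      intro s hs t hts htne
      rw [mem_simplices] at hs ⊢
      exact ⟨hts.trans hs.1, htne, hs.2.2.subset (by exact_mod_cast hts)⟩)).2
  rw [derivative_eval_eq] at hb
  have he : (eta H A : ℚ) = ∑ k ∈ Icc 1 #(simplices H A),
      (-1) ^ (k + 1) * ((k : ℚ) + 1) * v (incl α) (simplices H A) k := by
    unfold eta; push_cast; rfl
  have h1 : (fp H A).eval 1 = 1 + #(simplices H A) := by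
    rw [fp_eq_simplices]; simp [eval_finsetSum]
  have h2 : (fp H A).eval (-2) = 1 + ∑ σ ∈ simplices H A, (-2) ^ (#σ) := by
    rw [fp_eq_simplices]; simp [eval_finsetSum]
  have h3 : (fp H A).eval (-1) = 1 + ∑ σ ∈ simplices H A, (-1) ^ (#σ) := by
    rw [fp_eq_simplices]; simp [eval_finsetSum]
  have h4 : ∑ σ ∈ simplices H A, (-1 : ℚ) ^ (#σ) * (2 ^ (#σ) - 1) =
      ∑ σ ∈ simplices H A, (-2 : ℚ) ^ (#σ) - ∑ σ ∈ simplices H A, (-1) ^ (#σ) := by
    rw [← sum_sub_distrib]
    refine sum_congr rfl fun σ _ => ?_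
    rw [mul_sub, ← mul_pow]; norm_num
  rw [he, h1, h2, h3, eval_zero_fp]
  rw [h4] at hb
  linarith

end

/-- For every `d ≥ 0` and every `d`-variety `H[A]` one has `η ≥ 0`, and `η = 0` if `d` is even.
(The case where `A` consists of all the vertices of a finite graph `H` is the case of the graph
`H` itself.) -/
theorem result {α : Type*} [DecidableEq α] (H : SimpleGraph α) (A : Finset α) (d : ℕ)
    (h : IsVariety H (d + 1) A) : 0 ≤ eta H A ∧ (Even d → eta H A = 0) := by
  have h1 := eta_eq H A
  rw [main_identity d A h] at h1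
  have h2 := nonneg_part (H := H) A
  rcases Nat.even_or_odd d with hd | hd
  · rw [hd.neg_one_pow, sub_self, zero_mul] at h1
    have : eta H A = 0 := by exact_mod_cast h1
    exact ⟨this.ge, fun _ => this⟩
  · refine ⟨?_, fun he => absurd hd (Nat.not_odd_iff_even.mpr he)⟩
    rw [hd.neg_one_pow] at h1
    have : (0 : ℚ) ≤ (eta H A : ℚ) := by rw [h1]; linarith
    exact_mod_cast this

end Pool.Agent.Results.MP_165839_co.EtaNonneg
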